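import Pool.Agent.DQ2.Stmts

/-!
# Squad DQ2, row HOM
-/

set_option autoImplicit false

open MvPolynomial

namespace Pool.Agent.DQ2.H11

theorem hom_mem (n d : ℕ) (m : Fin (n + 2) →₀ ℕ) :
    m ∈ (Finset.univ : Finset (Fin (n + 2))).finsuppAntidiag d ↔ m.degree = d := by
  rw [Finset.mem_finsuppAntidiag, Finsupp.degree_eq_sum]
  constructor
  · intro h
    exact h.1
  · intro h
    exact ⟨h, Finset.subset_univ _⟩

theorem hom : HOM := by
  intro n d
  constructor
  · unfold LDP.FA
    refine MvPolynomial.IsHomogeneous.sum _ _ _ ?_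
    intro m hm
    exact MvPolynomial.isHomogeneous_monomial _ ((hom_mem n d m).mp hm)
  · intro m hm
    unfold LDP.FA
    rw [MvPolynomial.coeff_sum]
    rw [Finset.sum_eq_single m]
    · rw [MvPolynomial.coeff_monomial, if_pos rfl]
    · intro b _ hb
      rw [MvPolynomial.coeff_monomial, if_neg hb]
    · intro h
      exact absurd ((hom_mem n d m).mpr hm) h

end Pool.Agent.DQ2.H11
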